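import Pool.Agent.helper69.RSV.F4

/-!
# Finitely generated groups in the variety generated by `F x Z` have a centre of finite index
-/

set_option autoImplicit false

namespace Pool.Agent.helper66.RN

open Pool.Agent.helper80.RSV

/-- values of laws of `F` are central in the groups of the variety generated by `F x Z` -/
theorem lift_mem_center {F : Type} [Group F] {G : Type} [Group G]
    (h : InVar (F × Multiplicative ℤ) G) {w : FreeGroup ℕ} (hw : Law w F) (f : ℕ → G) :
    FreeGroup.lift f w ∈ Subgroup.center G := by
  let s : FreeGroup ℕ →* FreeGroup ℕ := FreeGroup.map Nat.succ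
  let w' : FreeGroup ℕ := s w * FreeGroup.of 0 * (s w)⁻¹ * (FreeGroup.of 0)⁻¹
  have hs : ∀ {H : Type} [Group H] (f' : ℕ → H),
      FreeGroup.lift f' (s w) = FreeGroup.lift (fun n => f' (n + 1)) w := by
    intro H _ f'
    have h1 : (FreeGroup.lift f').comp s = FreeGroup.lift fun n => f' (n + 1) := by
      ext n
      simp [s]
    exact DFunLike.congr_fun h1 w
  have hl : Law w' (F × Multiplicative ℤ) := by
    intro f'
    have h1 : FreeGroup.lift f' w' = FreeGroup.lift f' (s w) * f' 0 * (FreeGroup.lift f' (s w))⁻¹ *
        (f' 0)⁻¹ := by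
      simp [w']
    have h2 : (FreeGroup.lift f' (s w)).1 = 1 := by
      rw [hs]
      have h3 : (MonoidHom.fst F (Multiplicative ℤ)).comp (FreeGroup.lift fun n => f' (n + 1)) =
          FreeGroup.lift fun n => (f' (n + 1)).1 := by
        ext n
        simp
      have h4 := DFunLike.congr_fun h3 w
      rw [hw fun n => (f' (n + 1)).1] at h4
      exact h4
    rw [h1]
    refine Prod.ext ?_ ?_
    · simp only [Prod.fst_mul, Prod.fst_inv, h2, Prod.fst_one, one_mul, inv_one, mul_one,
        mul_inv_cancel]
    · simp only [Prod.snd_mul, Prod.snd_inv, Prod.snd_one]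
      rw [mul_comm (FreeGroup.lift f' (s w)).2 (f' 0).2, mul_inv_cancel_right, mul_inv_cancel]
  rw [Subgroup.mem_center_iff]
  intro x
  have h1 := h w' hl fun n => Nat.casesOn n x f
  have h2 : FreeGroup.lift (fun n => Nat.casesOn n x f : ℕ → G) w' =
      FreeGroup.lift f w * x * (FreeGroup.lift f w)⁻¹ * x⁻¹ := by
    simp only [w', map_mul, map_inv, hs, FreeGroup.lift_apply_of]
    rfl
  rw [h2, mul_inv_eq_one, mul_inv_eq_iff_eq_mul] at h1
  exact h1.symm

/-- the centre factor group is in the variety generated by `F` -/
theorem InVar.quot_center {F : Type} [Group F] {G : Type} [Group G]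
    (h : InVar (F × Multiplicative ℤ) G) : InVar F (G ⧸ Subgroup.center G) := by
  intro w hw f
  choose g hg using fun n => QuotientGroup.mk'_surjective (Subgroup.center G) (f n)
  have h1 : (QuotientGroup.mk' (Subgroup.center G)).comp (FreeGroup.lift g) =
      FreeGroup.lift f := by
    ext n
    simpa using hg n
  have h2 := DFunLike.congr_fun h1 w
  rw [← h2]
  have h3 := lift_mem_center h hw g
  rw [MonoidHom.comp_apply]
  exact (QuotientGroup.eq_one_iff _).2 h3

/-- finitely generated groups in the variety generated by `F x Z` have a centre of finite index -/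
theorem center_finiteIndex {F : Type} [Group F] [Finite F] {G : Type} [Group G] (hfg : Group.FG G)
    (h : InVar (F × Multiplicative ℤ) G) : (Subgroup.center G).FiniteIndex := by
  have h1 : Group.FG (G ⧸ Subgroup.center G) := QuotientGroup.fg (Subgroup.center G)
  have h2 : Finite (G ⧸ Subgroup.center G) := (InVar.quot_center h).finite h1
  exact Subgroup.finiteIndex_of_finite_quotient

end Pool.Agent.helper66.RN
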